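import Pool.Agent.R231.GB.Main2

set_option autoImplicit false

open Filter Topology Set Metric Asymptotics

namespace Pool.Agent.R231.GB

/-- rigidity under the condition along the curve `z ↦ sym (z, b)` -/
theorem main_curve {F : ℂ × ℂ → ℂ × ℂ} (hF : DifferentiableOn ℂ F G2) (hm : MapsTo F G2 G2)
    {b : ℂ} (hb : b ∈ Dsc)
    (h : (fun z : ℂ => F (sym (z, b)) - sym (z, b)) =o[𝓝[Dsc] 1] fun z => (1 - z) ^ 3) :
    ∀ z ∈ G2, F z = z := by
  have hα : Tendsto (fun z : ℂ => (F (sym (z, b)) - sym (z, b)).2 / (1 - z) ^ 3) (𝓝[Dsc] 1)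
      (𝓝 0) := by
    apply IsLittleO.tendsto_div_nhds_zero
    exact (IsBigO.of_bound 1 (Eventually.of_forall fun z => by
      rw [one_mul]; exact norm_snd_le _)).trans_isLittleO h
  have hβ : Tendsto (fun z : ℂ => (F (sym (z, b)) - sym (z, b)).1 / (1 - z) ^ 3) (𝓝[Dsc] 1)
      (𝓝 0) := by
    apply IsLittleO.tendsto_div_nhds_zero
    exact (IsBigO.of_bound 1 (Eventually.of_forall fun z => by
      rw [one_mul]; exact norm_fst_le _)).trans_isLittleO h
  have hP : ∀ z ∈ Dsc, (F (sym (z, b))).2 = z * b +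
      (F (sym (z, b)) - sym (z, b)).2 / (1 - z) ^ 3 * (1 - z) ^ 3 := by
    intro z hz
    rw [div_mul_cancel₀ _ (pow_ne_zero 3 (one_sub_ne (mem_Dsc.1 hz)))]
    simp [sym]
  have hS : ∀ z ∈ Dsc, (F (sym (z, b))).1 = z + b +
      (F (sym (z, b)) - sym (z, b)).1 / (1 - z) ^ 3 * (1 - z) ^ 3 := by
    intro z hz
    rw [div_mul_cancel₀ _ (pow_ne_zero 3 (one_sub_ne (mem_Dsc.1 hz)))]
    simp [sym]
  have h1 := fun l (hl : l ∈ Dsc ×ˢ Dsc) => step1 hF hm hb hα hβ hP hS hl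
  rintro z ⟨x, y, hx, hy, rfl⟩
  have hl : (x, y) ∈ Dsc ×ˢ Dsc := ⟨mem_Dsc.2 hx, mem_Dsc.2 hy⟩
  have h2 := step2 hF hm hb hα hP h1 hl
  have h3 := h1 _ hl
  rw [h2] at h3
  simp only at h2 h3
  have nx := one_sub_ne hx
  have ny := one_sub_ne hy
  have nxy : 1 - x * y ≠ 0 := by
    apply one_sub_ne
    rw [norm_mul]
    nlinarith [norm_nonneg x, norm_nonneg y]
  rw [← kk_add nx ny] at h3
  have h4 : 1 - (x + y) + x * y ≠ 0 := by
    have : 1 - (x + y) + x * y = (1 - x) * (1 - y) := by ring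
    rw [this]
    exact mul_ne_zero nx ny
  have h5 : 1 - (F (sym (x, y))).1 + x * y ≠ 0 := by
    intro h0
    rw [h0, div_zero] at h3
    exact div_ne_zero nxy h4 h3.symm
  rw [div_eq_div_iff h5 h4] at h3
  have h6 := mul_left_cancel₀ nxy h3
  have h7 : (F (sym (x, y))).1 = x + y := by linear_combination h6
  have e : sym (x, y) = (x + y, x * y) := rfl
  rw [e] at h2 h7
  exact Prod.ext h7 h2

lemma G2_eq : G2 = {z : ℂ × ℂ | ‖z.1 - (starRingEnd ℂ) z.1 * z.2‖ < 1 - ‖z.2‖ ^ 2} := by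
  have hid : ∀ a b : ℂ, (a + b) - (starRingEnd ℂ) (a + b) * (a * b) =
      a * ((1 - ‖b‖ ^ 2 : ℝ) : ℂ) + b * ((1 - ‖a‖ ^ 2 : ℝ) : ℂ) := by
    intro a b
    have ha : ((‖a‖ ^ 2 : ℝ) : ℂ) = a * (starRingEnd ℂ) a := by
      rw [Complex.mul_conj, Complex.normSq_eq_norm_sq]
    have hb : ((‖b‖ ^ 2 : ℝ) : ℂ) = b * (starRingEnd ℂ) b := by
      rw [Complex.mul_conj, Complex.normSq_eq_norm_sq]
    rw [Complex.ofReal_sub, Complex.ofReal_sub, ha, hb, map_add, Complex.ofReal_one]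
    ring
  ext z
  constructor
  · rintro ⟨a, b, ha, hb, rfl⟩
    show ‖(a + b) - (starRingEnd ℂ) (a + b) * (a * b)‖ < 1 - ‖a * b‖ ^ 2
    rw [hid, norm_mul]
    have h1 : 0 ≤ 1 - ‖b‖ ^ 2 := by nlinarith [norm_nonneg b]
    have h2 : 0 ≤ 1 - ‖a‖ ^ 2 := by nlinarith [norm_nonneg a]
    calc _ ≤ ‖a * ((1 - ‖b‖ ^ 2 : ℝ) : ℂ)‖ + ‖b * ((1 - ‖a‖ ^ 2 : ℝ) : ℂ)‖ := norm_add_le _ _
      _ = ‖a‖ * (1 - ‖b‖ ^ 2) + ‖b‖ * (1 - ‖a‖ ^ 2) := by
          rw [norm_mul, norm_mul, Complex.norm_real, Complex.norm_real,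
            Real.norm_of_nonneg h1, Real.norm_of_nonneg h2]
      _ < 1 - (‖a‖ * ‖b‖) ^ 2 := by
          have h3 : 0 < (1 - ‖a‖ * ‖b‖) * ((1 - ‖a‖) * (1 - ‖b‖)) := by
            apply mul_pos
            · nlinarith [norm_nonneg a, norm_nonneg b]
            · exact mul_pos (by linarith) (by linarith)
          nlinarith
  · intro hz
    obtain ⟨s, p⟩ := z
    have hz' : ‖s - (starRingEnd ℂ) s * p‖ < 1 - ‖p‖ ^ 2 := hz
    obtain ⟨d, hd⟩ := IsAlgClosed.exists_pow_nat_eq (s ^ 2 - 4 * p) (n := 2) two_pos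
    have key : ∀ a b : ℂ, a + b = s → a * b = p → ‖a‖ < 1 := by
      intro a b h1 h2
      by_contra hcon
      push Not at hcon
      subst h1
      subst h2
      rw [hid, norm_mul] at hz'
      have hp1 : ‖a‖ * ‖b‖ < 1 := by
        have := norm_nonneg (a * ((1 - ‖b‖ ^ 2 : ℝ) : ℂ) + b * ((1 - ‖a‖ ^ 2 : ℝ) : ℂ))
        nlinarith [mul_nonneg (norm_nonneg a) (norm_nonneg b)]
      have hb1 : ‖b‖ < 1 := by nlinarith [norm_nonneg b]
      have h3 : 0 ≤ 1 - ‖b‖ ^ 2 := by nlinarith [norm_nonneg b]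
      have h4 : 0 ≤ ‖a‖ ^ 2 - 1 := by nlinarith
      have h5 : ‖a‖ * (1 - ‖b‖ ^ 2) - ‖b‖ * (‖a‖ ^ 2 - 1) ≤
          ‖a * ((1 - ‖b‖ ^ 2 : ℝ) : ℂ) + b * ((1 - ‖a‖ ^ 2 : ℝ) : ℂ)‖ := by
        have e1 : ‖a * ((1 - ‖b‖ ^ 2 : ℝ) : ℂ)‖ = ‖a‖ * (1 - ‖b‖ ^ 2) := by
          rw [norm_mul, Complex.norm_real, Real.norm_of_nonneg h3]
        have e2 : ‖b * ((1 - ‖a‖ ^ 2 : ℝ) : ℂ)‖ = ‖b‖ * (‖a‖ ^ 2 - 1) := by
          rw [norm_mul, Complex.norm_real, Real.norm_eq_abs, abs_sub_comm, abs_of_nonneg h4]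
        have h6 := norm_sub_norm_le (a * ((1 - ‖b‖ ^ 2 : ℝ) : ℂ)) (-(b * ((1 - ‖a‖ ^ 2 : ℝ) : ℂ)))
        rw [norm_neg, sub_neg_eq_add, e1, e2] at h6
        exact h6
      have h7 : 0 ≤ (1 - ‖a‖ * ‖b‖) * ((‖a‖ - 1) * (1 - ‖b‖)) := by
        apply mul_nonneg (by linarith)
        exact mul_nonneg (by linarith) (by linarith)
      nlinarith
    refine ⟨(s + d) / 2, (s - d) / 2, ?_, ?_, ?_⟩
    · apply key _ ((s - d) / 2)
      · ring
      · linear_combination (-1 / 4 : ℂ) * hd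
    · apply key _ ((s + d) / 2)
      · ring
      · linear_combination (-1 / 4 : ℂ) * hd
    · apply Prod.ext
      · simp only; ring
      · simp only
        linear_combination (1 / 4 : ℂ) * hd

lemma G2_open : IsOpen G2 := by
  rw [G2_eq]
  apply isOpen_lt
  · apply Continuous.norm
    apply Continuous.sub continuous_fst
    exact (Complex.continuous_conj.comp continuous_fst).mul continuous_snd
  · fun_prop

lemma closure_G2 {z : ℂ × ℂ} (hz : z ∈ closure G2) :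
    ∃ a b : ℂ, ‖a‖ ≤ 1 ∧ ‖b‖ ≤ 1 ∧ z = (a + b, a * b) := by
  have hc : IsCompact (sym '' (closedBall (0 : ℂ) 1 ×ˢ closedBall (0 : ℂ) 1)) := by
    apply IsCompact.image
    · exact (isCompact_closedBall _ _).prod (isCompact_closedBall _ _)
    · unfold sym
      fun_prop
  have hsub : G2 ⊆ sym '' (closedBall (0 : ℂ) 1 ×ˢ closedBall (0 : ℂ) 1) := by
    rintro z ⟨a, b, ha, hb, rfl⟩
    exact ⟨(a, b), ⟨mem_closedBall_zero_iff.2 ha.le, mem_closedBall_zero_iff.2 hb.le⟩, rfl⟩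
  obtain ⟨⟨a, b⟩, ⟨ha, hb⟩, h⟩ := closure_minimal hsub hc.isClosed hz
  exact ⟨a, b, mem_closedBall_zero_iff.1 ha, mem_closedBall_zero_iff.1 hb, h.symm⟩

/-- rigidity at the point `(a + b, a b)`, `|a| = 1`, `|b| < 1` -/
theorem main_point {F : ℂ × ℂ → ℂ × ℂ} (hF : DifferentiableOn ℂ F G2) (hm : MapsTo F G2 G2)
    {a b : ℂ} (ha : ‖a‖ = 1) (hb : ‖b‖ < 1)
    (h : (fun z => F z - z) =o[𝓝[G2] (a + b, a * b)]
      fun z => (√(‖z.1 - (a + b)‖ ^ 2 + ‖z.2 - a * b‖ ^ 2)) ^ 3) :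
    ∀ z ∈ G2, F z = z := by
  set ω : ℂ := (starRingEnd ℂ) a with hω
  have haω : a * ω = 1 := by
    rw [hω, Complex.mul_conj, Complex.normSq_eq_norm_sq, ha]; simp
  have hωn : ‖ω‖ = 1 := by rw [hω, RCLike.norm_conj, ha]
  have hrot : ∀ c : ℂ, ‖c‖ = 1 → ∀ z ∈ G2, (c * z.1, c ^ 2 * z.2) ∈ G2 := by
    rintro c hc z ⟨x, y, hx, hy, rfl⟩
    refine ⟨c * x, c * y, ?_, ?_, ?_⟩
    · rw [norm_mul, hc, one_mul]; exact hx
    · rw [norm_mul, hc, one_mul]; exact hy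
    · apply Prod.ext <;> simp only <;> ring
  set F' : ℂ × ℂ → ℂ × ℂ := fun z =>
    (ω * (F (a * z.1, a ^ 2 * z.2)).1, ω ^ 2 * (F (a * z.1, a ^ 2 * z.2)).2) with hF'
  have hdF' : DifferentiableOn ℂ F' G2 := by
    have h1 : DifferentiableOn ℂ (fun z : ℂ × ℂ => F (a * z.1, a ^ 2 * z.2)) G2 := by
      apply hF.comp
      · fun_prop
      · intro z hz; exact hrot a ha z hz
    exact (h1.fst.const_mul ω).prodMk (h1.snd.const_mul (ω ^ 2))
  have hmF' : MapsTo F' G2 G2 := fun z hz => hrot ω hωn _ (hm (hrot a ha z hz))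
  have hb' : ω * b ∈ Dsc := by
    rw [mem_Dsc, norm_mul, hωn, one_mul]; exact hb
  have hcurve : (fun z : ℂ => F' (sym (z, ω * b)) - sym (z, ω * b)) =o[𝓝[Dsc] 1]
      fun z => (1 - z) ^ 3 := by
    -- the curve
    have hc : Tendsto (fun z : ℂ => (a * z + b, a * z * b)) (𝓝[Dsc] 1)
        (𝓝[G2] (a + b, a * b)) := by
      rw [tendsto_nhdsWithin_iff]
      constructor
      · have h1 : Tendsto (fun z : ℂ => (a * z + b, a * z * b)) (𝓝 1)
            (𝓝 (a * 1 + b, a * 1 * b)) := Continuous.tendsto (by fun_prop) 1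
        rw [mul_one] at h1
        exact h1.mono_left nhdsWithin_le_nhds
      · filter_upwards [self_mem_nhdsWithin] with z hz
        refine ⟨a * z, b, ?_, hb, rfl⟩
        rw [norm_mul, ha, one_mul]
        exact mem_Dsc.1 hz
    have h1 := h.comp_tendsto hc
    have h2 : ((fun z : ℂ × ℂ => (√(‖z.1 - (a + b)‖ ^ 2 + ‖z.2 - a * b‖ ^ 2)) ^ 3) ∘
        fun z : ℂ => (a * z + b, a * z * b)) =O[𝓝[Dsc] 1] fun z => (1 - z) ^ 3 := by
      apply IsBigO.of_bound ((√2) ^ 3)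
      refine Eventually.of_forall fun z => ?_
      simp only [Function.comp]
      rw [norm_pow, norm_pow, Real.norm_of_nonneg (Real.sqrt_nonneg _), ← mul_pow]
      have e1 : a * z + b - (a + b) = -(a * (1 - z)) := by ring
      have e2 : a * z * b - a * b = -(a * b * (1 - z)) := by ring
      rw [e1, e2, norm_neg, norm_neg, norm_mul, norm_mul, norm_mul, ha, one_mul, one_mul]
      have h3 : √(‖1 - z‖ ^ 2 + (‖b‖ * ‖1 - z‖) ^ 2) ≤ √2 * ‖1 - z‖ := by
        rw [← Real.sqrt_sq (norm_nonneg (1 - z)), ← Real.sqrt_mul (by norm_num),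
          Real.sqrt_sq (norm_nonneg (1 - z))]
        apply Real.sqrt_le_sqrt
        have h4 : (‖b‖ * ‖1 - z‖) ^ 2 ≤ ‖1 - z‖ ^ 2 := by
          apply pow_le_pow_left₀ (by positivity)
          nlinarith [norm_nonneg (1 - z)]
        linarith
      gcongr
    have h3 := h1.trans_isBigO h2
    refine IsBigO.trans_isLittleO (IsBigO.of_bound 1 (Eventually.of_forall fun z => ?_)) h3
    rw [one_mul]
    simp only [Function.comp]
    have e0 : (a * (sym (z, ω * b)).1, a ^ 2 * (sym (z, ω * b)).2) = (a * z + b, a * z * b) := by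
      unfold sym
      apply Prod.ext
      · simp only
        linear_combination b * haω
      · simp only
        linear_combination a * z * b * haω
    rw [hF']
    simp only
    rw [e0]
    generalize F (a * z + b, a * z * b) = w
    have e1 : (ω * w.1, ω ^ 2 * w.2) - sym (z, ω * b) =
        (ω * (w - (a * z + b, a * z * b)).1, ω ^ 2 * (w - (a * z + b, a * z * b)).2) := by
      unfold sym
      apply Prod.ext
      · simp only [Prod.fst_sub]
        linear_combination z * haω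
      · simp only [Prod.snd_sub]
        linear_combination (ω * b * z) * haω
    rw [e1, Prod.norm_def, Prod.norm_def]
    simp only [norm_mul, norm_pow, hωn, one_mul, one_pow, le_refl]
  have hid := main_curve hdF' hmF' hb' hcurve
  intro z hz
  have h1 := hid _ (hrot ω hωn z hz)
  rw [hF'] at h1
  simp only at h1
  have e0 : (a * (ω * z.1), a ^ 2 * (ω ^ 2 * z.2)) = z := by
    apply Prod.ext
    · simp only
      linear_combination z.1 * haω
    · simp only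
      linear_combination z.2 * (a * ω + 1) * haω
  rw [e0] at h1
  have h2 := congrArg Prod.fst h1
  have h3 := congrArg Prod.snd h1
  simp only at h2 h3
  have hω0 : ω ≠ 0 := by
    intro h0
    rw [h0, norm_zero] at hωn
    exact zero_ne_one hωn
  exact Prod.ext (mul_left_cancel₀ hω0 h2) (mul_left_cancel₀ (pow_ne_zero 2 hω0) h3)

end Pool.Agent.R231.GB
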