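import Pool.Agent.R231.GB.SP

set_option autoImplicit false

open Filter Topology Set Metric

namespace Pool.Agent.R231.GB

/-- Cayley transform of the disc onto the right half-plane -/
noncomputable def kk (a : ℂ) : ℂ := (1 + a) / (1 - a)

lemma one_sub_ne {a : ℂ} (ha : ‖a‖ < 1) : 1 - a ≠ 0 := by
  intro h
  have h3 : a = 1 := by linear_combination -h
  rw [h3, norm_one] at ha
  exact lt_irrefl _ ha

lemma kk_re (a : ℂ) : (kk a).re = (1 - ‖a‖ ^ 2) / ‖1 - a‖ ^ 2 := by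
  rw [kk, Complex.div_re, ← Complex.normSq_eq_norm_sq, ← Complex.normSq_eq_norm_sq, ← add_div]
  congr 1
  simp only [Complex.normSq_apply, Complex.add_re, Complex.add_im, Complex.sub_re, Complex.sub_im,
    Complex.one_re, Complex.one_im]
  ring

lemma kk_re_pos {a : ℂ} (ha : ‖a‖ < 1) : 0 < (kk a).re := by
  rw [kk_re]
  have h1 := norm_pos_iff.2 (one_sub_ne ha)
  have h2 : 0 < 1 - ‖a‖ ^ 2 := by nlinarith [norm_nonneg a]
  positivity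

lemma kk_diff : DifferentiableOn ℂ kk Dsc := by
  apply DifferentiableOn.div (by fun_prop) (by fun_prop)
  intro z hz
  exact one_sub_ne (mem_Dsc.1 hz)

/-- the Schwarz-Pick inequality with base point `(r, b)`, `r → 1` -/
lemma base {g : ℂ × ℂ → ℂ} (hg : DifferentiableOn ℂ g (Dsc ×ˢ Dsc))
    (hre : ∀ z ∈ Dsc ×ˢ Dsc, 0 ≤ (g z).re) {b : ℂ} (hb : b ∈ Dsc) {l : ℂ × ℂ}
    (hl : l ∈ Dsc ×ˢ Dsc) : ∀ᶠ r : ℝ in 𝓝[<] 1,
    ‖g l - g ((r : ℂ), b)‖ ^ 2 * (1 - ‖l.1‖ ^ 2) * (1 - r ^ 2) ≤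
      4 * (g l).re * (g ((r : ℂ), b)).re * ‖l.1 - r‖ ^ 2 := by
  have hl1 := mem_Dsc.1 hl.1
  have hl2 := mem_Dsc.1 hl.2
  have hb' := mem_Dsc.1 hb
  -- the second coordinate is at distance `< 1`
  have hd2 : ‖l.2 - b‖ < ‖1 - (starRingEnd ℂ) b * l.2‖ := by
    have e : ‖1 - (starRingEnd ℂ) b * l.2‖ ^ 2 - ‖l.2 - b‖ ^ 2 =
        (1 - ‖b‖ ^ 2) * (1 - ‖l.2‖ ^ 2) := by
      rw [← Complex.normSq_eq_norm_sq, ← Complex.normSq_eq_norm_sq, ← Complex.normSq_eq_norm_sq,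
        ← Complex.normSq_eq_norm_sq]
      simp only [Complex.normSq_apply, Complex.sub_re, Complex.sub_im, Complex.mul_re,
        Complex.mul_im, Complex.conj_re, Complex.conj_im, Complex.one_re, Complex.one_im]
      ring
    have h4 : 0 < (1 - ‖b‖ ^ 2) * (1 - ‖l.2‖ ^ 2) := by
      apply mul_pos
      · nlinarith [norm_nonneg b]
      · nlinarith [norm_nonneg l.2]
    have h5 := norm_nonneg (l.2 - b)
    have h6 := norm_nonneg (1 - (starRingEnd ℂ) b * l.2)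
    nlinarith
  have hne1 : (1 : ℂ) - l.1 ≠ 0 := one_sub_ne hl1
  have hlim : Tendsto (fun r : ℝ => ‖l.1 - r‖ / ‖1 - (r : ℂ) * l.1‖) (𝓝[<] 1) (𝓝 1) := by
    have h1 : ContinuousAt (fun r : ℝ => ‖l.1 - r‖ / ‖1 - (r : ℂ) * l.1‖) 1 := by
      apply ContinuousAt.div (by fun_prop) (by fun_prop)
      rw [Complex.ofReal_one, one_mul]
      exact (norm_pos_iff.2 hne1).ne'
    have h2 := h1.tendsto
    rw [Complex.ofReal_one, one_mul, norm_sub_rev, div_self (norm_pos_iff.2 hne1).ne'] at h2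
    exact h2.mono_left nhdsWithin_le_nhds
  have hr0 : ∀ᶠ r : ℝ in 𝓝[<] 1, ‖l.1‖ < r := by
    filter_upwards [Ioo_mem_nhdsLT hl1] with r hr using hr.1
  have hr1 : ∀ᶠ r : ℝ in 𝓝[<] 1, r < 1 := self_mem_nhdsWithin
  have hev : ∀ᶠ r : ℝ in 𝓝[<] 1,
      ‖l.2 - b‖ / ‖1 - (starRingEnd ℂ) b * l.2‖ < ‖l.1 - r‖ / ‖1 - (r : ℂ) * l.1‖ := by
    apply hlim.eventually_const_lt
    rw [div_lt_one (lt_of_le_of_lt (norm_nonneg _) hd2)]
    exact hd2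
  filter_upwards [hr0, hr1, hev] with r h0 h1 h2
  have hrpos : 0 < r := lt_of_le_of_lt (norm_nonneg _) h0
  have hrD : (r : ℂ) ∈ Dsc := by
    rw [mem_Dsc, Complex.norm_real, Real.norm_of_nonneg hrpos.le]; exact h1
  set t : ℝ := ‖l.1 - r‖ / ‖1 - (r : ℂ) * l.1‖ with ht
  have hden : 0 < ‖1 - (r : ℂ) * l.1‖ := by
    rw [norm_pos_iff]
    apply one_sub_ne
    rw [norm_mul, Complex.norm_real, Real.norm_of_nonneg hrpos.le]
    nlinarith [norm_nonneg l.1]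
  have e : ‖1 - (r : ℂ) * l.1‖ ^ 2 - ‖l.1 - r‖ ^ 2 = (1 - r ^ 2) * (1 - ‖l.1‖ ^ 2) := by
    rw [← Complex.normSq_eq_norm_sq, ← Complex.normSq_eq_norm_sq, ← Complex.normSq_eq_norm_sq]
    simp only [Complex.normSq_apply, Complex.sub_re, Complex.sub_im, Complex.mul_re,
      Complex.mul_im, Complex.ofReal_re, Complex.ofReal_im, Complex.one_re, Complex.one_im]
    ring
  have e1 : 0 < (1 - r ^ 2) * (1 - ‖l.1‖ ^ 2) := by
    apply mul_pos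
    · nlinarith
    · nlinarith [norm_nonneg l.1]
  have htpos : 0 < t := by
    rw [ht]
    apply div_pos _ hden
    rw [norm_pos_iff]
    intro h
    have h3 : l.1 = r := by linear_combination h
    rw [h3, Complex.norm_real, Real.norm_of_nonneg hrpos.le] at h0
    exact lt_irrefl _ h0
  have ht1 : t < 1 := by
    rw [ht, div_lt_one hden]
    nlinarith [norm_nonneg (l.1 - r), norm_nonneg (1 - (r : ℂ) * l.1)]
  have key := sp2 hg hre hl (m := ((r : ℂ), b)) ⟨hrD, hb⟩ htpos ht1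
    (by
      simp only [Complex.conj_ofReal]
      rw [ht, div_mul_cancel₀ _ hden.ne'])
    (by
      have h3 : ‖l.2 - b‖ / ‖1 - (starRingEnd ℂ) b * l.2‖ *
          ‖1 - (starRingEnd ℂ) b * l.2‖ = ‖l.2 - b‖ :=
        div_mul_cancel₀ _ (lt_of_le_of_lt (norm_nonneg _) hd2).ne'
      calc ‖l.2 - b‖ = ‖l.2 - b‖ / ‖1 - (starRingEnd ℂ) b * l.2‖ *
          ‖1 - (starRingEnd ℂ) b * l.2‖ := h3.symm
        _ ≤ t * ‖1 - (starRingEnd ℂ) b * l.2‖ := by gcongr)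
  have ht2 : t ^ 2 * ‖1 - (r : ℂ) * l.1‖ ^ 2 = ‖l.1 - r‖ ^ 2 := by
    rw [ht, div_pow, div_mul_cancel₀]
    positivity
  have ht3 : (1 - t ^ 2) * ‖1 - (r : ℂ) * l.1‖ ^ 2 = (1 - ‖l.1‖ ^ 2) * (1 - r ^ 2) := by
    rw [sub_mul, ht2]; linarith
  calc ‖g l - g ((r : ℂ), b)‖ ^ 2 * (1 - ‖l.1‖ ^ 2) * (1 - r ^ 2)
      = ‖g l - g ((r : ℂ), b)‖ ^ 2 * (1 - t ^ 2) * ‖1 - (r : ℂ) * l.1‖ ^ 2 := by
        rw [mul_assoc, ← ht3]; ring
    _ ≤ 4 * (g l).re * (g ((r : ℂ), b)).re * t ^ 2 * ‖1 - (r : ℂ) * l.1‖ ^ 2 := by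
        gcongr
    _ = 4 * (g l).re * (g ((r : ℂ), b)).re * ‖l.1 - r‖ ^ 2 := by
        rw [mul_assoc, ht2]

/-- Julia: lower bound -/
lemma julia {g : ℂ × ℂ → ℂ} (hg : DifferentiableOn ℂ g (Dsc ×ˢ Dsc))
    (hre : ∀ z ∈ Dsc ×ˢ Dsc, 0 ≤ (g z).re) {b : ℂ} (hb : b ∈ Dsc)
    (hlim : Tendsto (fun r : ℝ => (1 - (r : ℂ)) * g ((r : ℂ), b)) (𝓝[<] 1) (𝓝 1))
    {l : ℂ × ℂ} (hl : l ∈ Dsc ×ˢ Dsc) : (kk l.1).re / 2 ≤ (g l).re := by
  have hl1 := mem_Dsc.1 hl.1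
  have hne1 := norm_pos_iff.2 (one_sub_ne hl1)
  have hcr : Tendsto (fun r : ℝ => (r : ℂ)) (𝓝[<] 1) (𝓝 1) := by
    have : Tendsto (fun r : ℝ => (r : ℂ)) (𝓝 1) (𝓝 ((1 : ℝ) : ℂ)) :=
      Complex.continuous_ofReal.tendsto 1
    rw [Complex.ofReal_one] at this
    exact this.mono_left nhdsWithin_le_nhds
  have hr : Tendsto (fun r : ℝ => r) (𝓝[<] (1 : ℝ)) (𝓝 1) := nhdsWithin_le_nhds
  have hL : Tendsto (fun r : ℝ => ‖(1 - (r : ℂ)) * g l - (1 - (r : ℂ)) * g ((r : ℂ), b)‖ ^ 2 *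
      (1 - ‖l.1‖ ^ 2) * (1 + r)) (𝓝[<] 1)
      (𝓝 (‖(1 - 1) * g l - 1‖ ^ 2 * (1 - ‖l.1‖ ^ 2) * (1 + 1))) := by
    apply Tendsto.mul
    · apply Tendsto.mul_const
      apply Tendsto.pow
      apply Tendsto.norm
      apply Tendsto.sub _ hlim
      exact (tendsto_const_nhds.sub hcr).mul_const _
    · exact tendsto_const_nhds.add hr
  have hR : Tendsto (fun r : ℝ => 4 * (g l).re * ((1 - (r : ℂ)) * g ((r : ℂ), b)).re *
      ‖l.1 - r‖ ^ 2) (𝓝[<] 1) (𝓝 (4 * (g l).re * (1 : ℂ).re * ‖l.1 - 1‖ ^ 2)) := by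
    apply Tendsto.mul
    · apply Tendsto.const_mul
      exact (Complex.continuous_re.tendsto _).comp hlim
    · apply Tendsto.pow
      apply Tendsto.norm
      exact tendsto_const_nhds.sub hcr
  have hle := le_of_tendsto_of_tendsto hL hR (by
    filter_upwards [base hg hre hb hl, self_mem_nhdsWithin] with r h1 h2
    have h2' : r < 1 := h2
    have e1 : ‖(1 - (r : ℂ)) * g l - (1 - (r : ℂ)) * g ((r : ℂ), b)‖ =
        (1 - r) * ‖g l - g ((r : ℂ), b)‖ := by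
      rw [← mul_sub, norm_mul, ← Complex.ofReal_one, ← Complex.ofReal_sub, Complex.norm_real,
        Real.norm_of_nonneg (by linarith)]
    have e2 : ((1 - (r : ℂ)) * g ((r : ℂ), b)).re = (1 - r) * (g ((r : ℂ), b)).re := by
      rw [← Complex.ofReal_one, ← Complex.ofReal_sub, Complex.re_ofReal_mul]
    show ‖(1 - (r : ℂ)) * g l - (1 - (r : ℂ)) * g ((r : ℂ), b)‖ ^ 2 *
      (1 - ‖l.1‖ ^ 2) * (1 + r) ≤ 4 * (g l).re * ((1 - (r : ℂ)) * g ((r : ℂ), b)).re *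
      ‖l.1 - r‖ ^ 2
    rw [e1, e2]
    have h3 : 0 ≤ 1 - r := by linarith
    calc ((1 - r) * ‖g l - g ((r : ℂ), b)‖) ^ 2 * (1 - ‖l.1‖ ^ 2) * (1 + r)
        = (1 - r) * (‖g l - g ((r : ℂ), b)‖ ^ 2 * (1 - ‖l.1‖ ^ 2) * (1 - r ^ 2)) := by ring
      _ ≤ (1 - r) * (4 * (g l).re * (g ((r : ℂ), b)).re * ‖l.1 - r‖ ^ 2) := by gcongr
      _ = _ := by ring)
  simp only [sub_self, zero_mul, zero_sub, norm_neg, norm_one, one_pow, one_mul,
    Complex.one_re, mul_one] at hle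
  rw [kk_re, norm_sub_rev] at *
  rw [div_div, div_le_iff₀ (by positivity)]
  rw [norm_sub_rev] at hle
  nlinarith

/-- Hopf: `g(r,b) = o(1-r)` forces `g = 0` -/
lemma hopf {g : ℂ × ℂ → ℂ} (hg : DifferentiableOn ℂ g (Dsc ×ˢ Dsc))
    (hre : ∀ z ∈ Dsc ×ˢ Dsc, 0 ≤ (g z).re) {b : ℂ} (hb : b ∈ Dsc)
    (hlim : Tendsto (fun r : ℝ => g ((r : ℂ), b) / (1 - (r : ℂ))) (𝓝[<] 1) (𝓝 0))
    {l : ℂ × ℂ} (hl : l ∈ Dsc ×ˢ Dsc) : g l = 0 := by
  have hl1 := mem_Dsc.1 hl.1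
  have hcr : Tendsto (fun r : ℝ => (r : ℂ)) (𝓝[<] 1) (𝓝 1) := by
    have : Tendsto (fun r : ℝ => (r : ℂ)) (𝓝 1) (𝓝 ((1 : ℝ) : ℂ)) :=
      Complex.continuous_ofReal.tendsto 1
    rw [Complex.ofReal_one] at this
    exact this.mono_left nhdsWithin_le_nhds
  have hr : Tendsto (fun r : ℝ => r) (𝓝[<] (1 : ℝ)) (𝓝 1) := nhdsWithin_le_nhds
  have hg0 : Tendsto (fun r : ℝ => g ((r : ℂ), b)) (𝓝[<] 1) (𝓝 0) := by
    have h1 : Tendsto (fun r : ℝ => (g ((r : ℂ), b) / (1 - (r : ℂ))) * (1 - (r : ℂ))) (𝓝[<] 1)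
        (𝓝 (0 * (1 - 1))) := hlim.mul (tendsto_const_nhds.sub hcr)
    rw [zero_mul] at h1
    refine h1.congr' ?_
    filter_upwards [self_mem_nhdsWithin] with r h2
    have h2' : r < 1 := h2
    rw [div_mul_cancel₀]
    rw [← Complex.ofReal_one, ← Complex.ofReal_sub, Complex.ofReal_ne_zero]
    linarith
  have hL : Tendsto (fun r : ℝ => ‖g l - g ((r : ℂ), b)‖ ^ 2 *
      (1 - ‖l.1‖ ^ 2) * (1 + r)) (𝓝[<] 1)
      (𝓝 (‖g l - 0‖ ^ 2 * (1 - ‖l.1‖ ^ 2) * (1 + 1))) := by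
    apply Tendsto.mul
    · apply Tendsto.mul_const
      apply Tendsto.pow
      apply Tendsto.norm
      exact tendsto_const_nhds.sub hg0
    · exact tendsto_const_nhds.add hr
  have hR : Tendsto (fun r : ℝ => 4 * (g l).re * (g ((r : ℂ), b) / (1 - (r : ℂ))).re *
      ‖l.1 - r‖ ^ 2) (𝓝[<] 1) (𝓝 (4 * (g l).re * (0 : ℂ).re * ‖l.1 - 1‖ ^ 2)) := by
    apply Tendsto.mul
    · apply Tendsto.const_mul
      exact (Complex.continuous_re.tendsto _).comp hlim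
    · apply Tendsto.pow
      apply Tendsto.norm
      exact tendsto_const_nhds.sub hcr
  have hle := le_of_tendsto_of_tendsto hL hR (by
    filter_upwards [base hg hre hb hl, self_mem_nhdsWithin] with r h1 h2
    have h2' : r < 1 := h2
    have h3 : 0 < 1 - r := by linarith
    have e2 : (g ((r : ℂ), b) / (1 - (r : ℂ))).re = (g ((r : ℂ), b)).re / (1 - r) := by
      rw [← Complex.ofReal_one, ← Complex.ofReal_sub, Complex.div_ofReal_re]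
    show ‖g l - g ((r : ℂ), b)‖ ^ 2 * (1 - ‖l.1‖ ^ 2) * (1 + r) ≤
      4 * (g l).re * (g ((r : ℂ), b) / (1 - (r : ℂ))).re * ‖l.1 - r‖ ^ 2
    rw [e2]
    have e3 : 4 * (g l).re * ((g ((r : ℂ), b)).re / (1 - r)) * ‖l.1 - r‖ ^ 2 =
        (4 * (g l).re * (g ((r : ℂ), b)).re * ‖l.1 - r‖ ^ 2) / (1 - r) := by ring
    rw [e3, le_div_iff₀ h3]
    calc ‖g l - g ((r : ℂ), b)‖ ^ 2 * (1 - ‖l.1‖ ^ 2) * (1 + r) * (1 - r)
        = ‖g l - g ((r : ℂ), b)‖ ^ 2 * (1 - ‖l.1‖ ^ 2) * (1 - r ^ 2) := by ring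
      _ ≤ _ := h1)
  simp only [sub_zero, Complex.zero_re, mul_zero, zero_mul] at hle
  have h1 : 0 < 1 - ‖l.1‖ ^ 2 := by nlinarith [norm_nonneg l.1]
  have h2 : ‖g l‖ ^ 2 ≤ 0 := by
    by_contra h
    push Not at h
    nlinarith [mul_pos h h1]
  have h3 : ‖g l‖ = 0 := by
    have := norm_nonneg (g l)
    nlinarith
  exact norm_eq_zero.1 h3

end Pool.Agent.R231.GB
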