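import Pool.Agent.R231.GB.Half

set_option autoImplicit false

open Filter Topology Set Metric

namespace Pool.Agent.R231.GB

lemma ineqII {w1 w2 K1 K2 : ℂ} (h1 : 0 < w1.re) (h2 : 0 < w2.re) (hK1 : 0 < K1.re)
    (hK2 : 0 < K2.re) (hT : K1 + K2 = w1 + w2) :
    ((w1 + (starRingEnd ℂ) w2) * (w1 * w2 - K1 * K2)).re ≤
      w1.re * ‖w1 + (starRingEnd ℂ) w2‖ ^ 2 := by
  have hK2' : K2 = w1 + w2 - K1 := by linear_combination hT
  subst hK2'
  obtain ⟨x1, y1⟩ := w1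
  obtain ⟨x2, y2⟩ := w2
  obtain ⟨X, Y⟩ := K1
  rw [← Complex.normSq_eq_norm_sq]
  simp only [Complex.normSq_apply, Complex.add_re, Complex.add_im, Complex.sub_re, Complex.sub_im,
    Complex.mul_re, Complex.mul_im, Complex.conj_re, Complex.conj_im] at *
  set imE : ℝ := x1 * y2 + y1 * x2 - (X * (y1 + y2 - Y) + Y * (x1 + x2 - X)) with himE
  set G : ℝ := (x1 + x2) * (x1 * x2 - y1 * y2 - (X * (x1 + x2 - X) - Y * (y1 + y2 - Y))) -
    (y1 + -y2) * imE with hG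
  have hid : (x1 + x2) * G = x1 ^ 2 * (y1 - y2) ^ 2 +
      x1 * x2 * ((x1 + x2) ^ 2 + (y1 - y2) ^ 2) - (imE + x1 * (y1 - y2)) ^ 2 -
      X * (x1 + x2 - X) * ((x1 + x2) ^ 2 + (2 * Y - y1 - y2) ^ 2) := by
    rw [hG, himE]; ring
  have hX : 0 ≤ X * (x1 + x2 - X) * ((x1 + x2) ^ 2 + (2 * Y - y1 - y2) ^ 2) := by positivity
  have hs : 0 < x1 + x2 := by linarith
  have hx : 0 ≤ x1 ^ 2 * (x1 + x2) ^ 2 := by positivity
  have hfin : (x1 + x2) * G ≤ (x1 + x2) * (x1 * ((x1 + x2) * (x1 + x2) +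
      (y1 + -y2) * (y1 + -y2))) := by
    rw [hid]
    nlinarith [sq_nonneg (imE + x1 * (y1 - y2))]
  exact le_of_mul_le_mul_left hfin hs

lemma norm_le_circle {f : ℂ → ℂ} {r C : ℝ} (hr : 0 < r)
    (hf : DifferentiableOn ℂ f (closedBall 0 r))
    (h : ∀ z : ℂ, ‖z‖ = r → ‖f z‖ ≤ C) {z : ℂ} (hz : ‖z‖ ≤ r) : ‖f z‖ ≤ C := by
  apply Complex.norm_le_of_forall_mem_frontier_norm_le (U := ball (0 : ℂ) r) isBounded_ball
    (hf.diffContOnCl_ball subset_rfl)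
  · intro w hw
    rw [frontier_ball _ hr.ne', mem_sphere_zero_iff_norm] at hw
    exact h w hw
  · rw [closure_ball _ hr.ne', mem_closedBall_zero_iff]
    exact hz

lemma re_le_circle {f : ℂ → ℂ} {r C : ℝ} (hr : 0 < r)
    (hf : DifferentiableOn ℂ f (closedBall 0 r))
    (h : ∀ z : ℂ, ‖z‖ = r → (f z).re ≤ C) {z : ℂ} (hz : ‖z‖ ≤ r) : (f z).re ≤ C := by
  have h1 := norm_le_circle (f := fun w => Complex.exp (f w)) (C := Real.exp C) hr hf.cexp
    (by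
      intro w hw
      rw [Complex.norm_exp, Real.exp_le_exp]
      exact h w hw) hz
  simpa only [Complex.norm_exp, Real.exp_le_exp] using h1

lemma zero_of_bound {f : ℂ → ℂ} (hf : DifferentiableOn ℂ f Dsc) {C : ℝ}
    (h : ∀ z ∈ Dsc, ‖f z‖ ≤ C * (1 - ‖z‖ ^ 2)) {z : ℂ} (hz : z ∈ Dsc) : f z = 0 := by
  rw [mem_Dsc] at hz
  have hev : ∀ᶠ r : ℝ in 𝓝[<] 1, ‖f z‖ ≤ C * (1 - r ^ 2) := by
    filter_upwards [Ioo_mem_nhdsLT hz, Ioo_mem_nhdsLT (zero_lt_one : (0 : ℝ) < 1)] with r hr hr'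
    apply norm_le_circle hr'.1 (hf.mono _) _ hr.1.le
    · intro w hw
      rw [mem_closedBall_zero_iff] at hw
      rw [mem_Dsc]
      linarith [hr.2]
    · intro w hw
      have := h w (by rw [mem_Dsc, hw]; exact hr.2)
      rwa [hw] at this
  have hlim : Tendsto (fun r : ℝ => C * (1 - r ^ 2)) (𝓝[<] 1) (𝓝 (C * (1 - 1 ^ 2))) := by
    apply Tendsto.mono_left _ nhdsWithin_le_nhds
    exact Continuous.tendsto (by fun_prop) 1
  have h1 := ge_of_tendsto hlim hev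
  have h2 : ‖f z‖ = 0 := by
    apply le_antisymm _ (norm_nonneg _)
    linarith
  exact norm_eq_zero.1 h2

lemma re_nonpos_of_bound {f : ℂ → ℂ} (hf : DifferentiableOn ℂ f Dsc) {C : ℝ} (hC : 0 ≤ C)
    (h : ∀ z ∈ Dsc, (f z).re ≤ C * ((1 - ‖z‖ ^ 2) / ‖1 - z‖ ^ 4))
    (h1 : Tendsto f (𝓝[Dsc] 1) (𝓝 0)) {z : ℂ} (hz : z ∈ Dsc) : (f z).re ≤ 0 := by
  rw [mem_Dsc] at hz
  apply le_of_forall_pos_le_add
  intro ε hε
  rw [zero_add]
  -- a neighbourhood of 1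
  have h2 : ∀ᶠ w in 𝓝[Dsc] 1, (f w).re < ε := by
    have h3 : Tendsto (fun w => (f w).re) (𝓝[Dsc] 1) (𝓝 (0 : ℂ).re) :=
      (Complex.continuous_re.tendsto _).comp h1
    exact h3.eventually_lt_const (by simpa using hε)
  obtain ⟨d, hd, h4'⟩ := Metric.nhdsWithin_basis_ball.eventually_iff.1 h2
  have h4 : ∀ w : ℂ, dist w 1 < d → w ∈ Dsc → (f w).re < ε := fun w h5 h6 => h4' ⟨h5, h6⟩
  have hlim : Tendsto (fun r : ℝ => C * ((1 - r ^ 2) / d ^ 4)) (𝓝[<] 1)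
      (𝓝 (C * ((1 - 1 ^ 2) / d ^ 4))) := by
    apply Tendsto.mono_left _ nhdsWithin_le_nhds
    exact Continuous.tendsto (by fun_prop) 1
  have hlim' : ∀ᶠ r : ℝ in 𝓝[<] 1, C * ((1 - r ^ 2) / d ^ 4) < ε := by
    apply hlim.eventually_lt_const
    simpa using hε
  have hb1 : ∀ᶠ r : ℝ in 𝓝[<] 1, r ∈ Ioo ‖z‖ 1 := Ioo_mem_nhdsLT hz
  have hb2 : ∀ᶠ r : ℝ in 𝓝[<] 1, r ∈ Ioo (0 : ℝ) 1 := Ioo_mem_nhdsLT zero_lt_one
  obtain ⟨r, hr1, hr2, hr3⟩ := (hb1.and (hb2.and hlim')).exists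
  apply re_le_circle hr2.1 (hf.mono _) _ hr1.1.le
  · intro w hw
    rw [mem_closedBall_zero_iff] at hw
    rw [mem_Dsc]
    linarith [hr1.2]
  · intro w hw
    have hwD : w ∈ Dsc := by rw [mem_Dsc, hw]; exact hr1.2
    by_cases hwd : dist w 1 < d
    · exact (h4 w hwd hwD).le
    · push Not at hwd
      rw [dist_eq_norm, norm_sub_rev] at hwd
      have h5 := h w hwD
      rw [hw] at h5
      have h6 : 0 ≤ 1 - r ^ 2 := by nlinarith [hr1.2, hr2.1]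
      have h7 : C * ((1 - r ^ 2) / ‖1 - w‖ ^ 4) ≤ C * ((1 - r ^ 2) / d ^ 4) := by
        gcongr
      linarith

lemma local_bound {E : ℂ → ℂ} {ρ M : ℝ} (hρ : 0 < ρ) (hM : 0 < M)
    (hE : DifferentiableOn ℂ E (closedBall 0 ρ)) (h0 : E 0 = 0) {δ : ℂ} (hδ : ‖δ‖ * ρ ≤ 1 / 8)
    (hre : ∀ η : ℂ, ‖η‖ = ρ → ((1 + δ * (starRingEnd ℂ) η) * E η).re ≤ M) {η : ℂ}
    (hη : ‖η‖ ≤ ρ / 2) : ‖E η‖ ≤ 7 * M := by
  set B : ℂ → ℂ := dslope E 0 with hB
  have hBd : DifferentiableOn ℂ B (closedBall 0 ρ) :=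
    (Complex.differentiableOn_dslope (closedBall_mem_nhds _ hρ)).2 hE
  have hBE : ∀ z : ℂ, E z = z * B z := by
    intro z
    have := sub_smul_dslope E 0 z
    rw [sub_zero, h0, sub_zero, smul_eq_mul] at this
    exact this.symm
  set c : ℂ := -(δ * ρ ^ 2) with hc
  have hcn : ‖c‖ ≤ ρ / 8 := by
    rw [hc, norm_neg, norm_mul, norm_pow, Complex.norm_real, Real.norm_of_nonneg hρ.le]
    nlinarith
  set L : ℂ → ℂ := fun z => (z - c) * B z with hL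
  have hLd : DifferentiableOn ℂ L (closedBall 0 ρ) := by
    apply DifferentiableOn.mul _ hBd
    fun_prop
  have hLre : ∀ z : ℂ, ‖z‖ = ρ → (L z).re ≤ M := by
    intro z hz
    have hz0 : z ≠ 0 := by
      intro h; rw [h, norm_zero] at hz; linarith
    have hzz : (starRingEnd ℂ) z * z = ρ ^ 2 := by
      rw [mul_comm, Complex.mul_conj, Complex.normSq_eq_norm_sq, hz]
      push_cast; ring
    have e : L z = (1 + δ * (starRingEnd ℂ) z) * E z := by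
      rw [hL]
      simp only
      rw [hBE z, hc]
      linear_combination (-(δ * B z)) * hzz
    rw [e]
    exact hre z hz
  have hLre' : ∀ z : ℂ, ‖z‖ ≤ ρ → (L z).re ≤ M := fun z hz => re_le_circle hρ hLd hLre hz
  -- Borel-Caratheodory around `c`
  have hbc : ∀ z : ℂ, ‖z‖ ≤ ρ / 2 → ‖L z‖ ≤ 5 * M := by
    intro z hz
    have hR : (0 : ℝ) < 7 * ρ / 8 := by positivity
    have hzc : ‖z - c‖ ≤ 5 * ρ / 8 := by
      calc ‖z - c‖ ≤ ‖z‖ + ‖c‖ := norm_sub_le _ _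
        _ ≤ 5 * ρ / 8 := by linarith
    have hmap : ∀ w ∈ ball (0 : ℂ) (7 * ρ / 8), ‖c + w‖ ≤ ρ := by
      intro w hw
      rw [mem_ball_zero_iff] at hw
      calc ‖c + w‖ ≤ ‖c‖ + ‖w‖ := norm_add_le _ _
        _ ≤ ρ := by linarith
    have h := Complex.borelCaratheodory_zero (f := fun w => L (c + w)) (R := 7 * ρ / 8) (M := M)
      (z := z - c) hM
      (by
        apply hLd.comp (by fun_prop)
        intro w hw
        rw [mem_closedBall_zero_iff]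
        exact hmap w hw)
      (by
        intro w hw
        exact hLre' _ (hmap w hw)) hR
      (by
        rw [mem_ball_zero_iff]
        linarith)
      (by simp [hL])
    simp only [add_sub_cancel] at h
    have h2 : 2 * M * ‖z - c‖ / (7 * ρ / 8 - ‖z - c‖) ≤ 5 * M := by
      rw [div_le_iff₀ (by linarith)]
      nlinarith
    linarith
  apply norm_le_circle (r := ρ / 2) (by positivity)
    (hE.mono (closedBall_subset_closedBall (by linarith))) _ hη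
  intro z hz
  have h1 := hbc z hz.le
  have h2 : 3 * ρ / 8 ≤ ‖z - c‖ := by
    have := norm_sub_norm_le z c
    linarith
  have h3 : ‖z - c‖ * ‖B z‖ ≤ 5 * M := by
    rw [← norm_mul]; exact h1
  rw [hBE z, norm_mul, hz]
  nlinarith [norm_nonneg (B z)]

end Pool.Agent.R231.GB
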