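import Pool.Agent.R231.GB.Ineq

set_option autoImplicit false

open Filter Topology Set Metric

namespace Pool.Agent.R231.GB

/-- the symmetrization map -/
def sym (l : ℂ × ℂ) : ℂ × ℂ := (l.1 + l.2, l.1 * l.2)

/-- the symmetrized bidisc -/
def G2 : Set (ℂ × ℂ) := {z | ∃ a b : ℂ, ‖a‖ < 1 ∧ ‖b‖ < 1 ∧ z = (a + b, a * b)}

lemma sym_mem {l : ℂ × ℂ} (hl : l ∈ Dsc ×ˢ Dsc) : sym l ∈ G2 :=
  ⟨l.1, l.2, mem_Dsc.1 hl.1, mem_Dsc.1 hl.2, rfl⟩

lemma kk_add {a b : ℂ} (ha : 1 - a ≠ 0) (hb : 1 - b ≠ 0) :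
    (1 - a * b) / (1 - (a + b) + a * b) = (kk a + kk b) / 2 := by
  have h : 1 - (a + b) + a * b = (1 - a) * (1 - b) := by ring
  rw [h, kk, kk]
  field_simp
  ring

lemma kk_mul {a b : ℂ} (ha : 1 - a ≠ 0) (hb : 1 - b ≠ 0) :
    (1 + (a + b) + a * b) / (1 - (a + b) + a * b) = kk a * kk b := by
  have h : 1 - (a + b) + a * b = (1 - a) * (1 - b) := by ring
  rw [h, kk, kk]
  field_simp
  ring

lemma sym_diff {F : ℂ × ℂ → ℂ × ℂ} (hF : DifferentiableOn ℂ F G2) :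
    DifferentiableOn ℂ (fun l => (F (sym l)).1) (Dsc ×ˢ Dsc) ∧
    DifferentiableOn ℂ (fun l => (F (sym l)).2) (Dsc ×ˢ Dsc) := by
  have h1 : DifferentiableOn ℂ (fun l => F (sym l)) (Dsc ×ˢ Dsc) := by
    apply hF.comp _ (fun l hl => sym_mem hl)
    unfold sym
    fun_prop
  exact ⟨h1.fst, h1.snd⟩

lemma rep {F : ℂ × ℂ → ℂ × ℂ} (hm : MapsTo F G2 G2) {l : ℂ × ℂ} (hl : l ∈ Dsc ×ˢ Dsc) :
    ∃ a b : ℂ, ‖a‖ < 1 ∧ ‖b‖ < 1 ∧ (F (sym l)).1 = a + b ∧ (F (sym l)).2 = a * b := by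
  obtain ⟨a, b, ha, hb, h⟩ := hm (sym_mem hl)
  exact ⟨a, b, ha, hb, by rw [h], by rw [h]⟩

lemma tendsto_real : Tendsto (fun r : ℝ => (r : ℂ)) (𝓝[<] 1) (𝓝[Dsc] 1) := by
  rw [tendsto_nhdsWithin_iff]
  constructor
  · have : Tendsto (fun r : ℝ => (r : ℂ)) (𝓝 1) (𝓝 ((1 : ℝ) : ℂ)) :=
      Complex.continuous_ofReal.tendsto 1
    rw [Complex.ofReal_one] at this
    exact this.mono_left nhdsWithin_le_nhds
  · filter_upwards [Ioo_mem_nhdsLT (zero_lt_one : (0 : ℝ) < 1)] with r hr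
    rw [mem_Dsc, Complex.norm_real, Real.norm_of_nonneg hr.1.le]
    exact hr.2

/-- the first step: `(1 - P)/(1 - S + P) = (1 - p)/(1 - s + p)` -/
lemma step1 {F : ℂ × ℂ → ℂ × ℂ} (hF : DifferentiableOn ℂ F G2) (hm : MapsTo F G2 G2) {b : ℂ}
    (hb : b ∈ Dsc) {α β : ℂ → ℂ} (hα : Tendsto α (𝓝[Dsc] 1) (𝓝 0))
    (hβ : Tendsto β (𝓝[Dsc] 1) (𝓝 0))
    (hP : ∀ z ∈ Dsc, (F (sym (z, b))).2 = z * b + α z * (1 - z) ^ 3)
    (hS : ∀ z ∈ Dsc, (F (sym (z, b))).1 = z + b + β z * (1 - z) ^ 3)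
    {l : ℂ × ℂ} (hl : l ∈ Dsc ×ˢ Dsc) :
    (1 - (F (sym l)).2) / (1 - (F (sym l)).1 + (F (sym l)).2) = (kk l.1 + kk l.2) / 2 := by
  obtain ⟨dS, dP⟩ := sym_diff hF
  set h : ℂ × ℂ → ℂ := fun l => (1 - (F (sym l)).2) / (1 - (F (sym l)).1 + (F (sym l)).2) with hh
  have hV : ∀ l ∈ Dsc ×ˢ Dsc, 1 - (F (sym l)).1 + (F (sym l)).2 ≠ 0 := by
    intro l hl
    obtain ⟨a, c, ha, hc, h1, h2⟩ := rep hm hl
    rw [h1, h2]
    have : 1 - (a + c) + a * c = (1 - a) * (1 - c) := by ring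
    rw [this]
    exact mul_ne_zero (one_sub_ne ha) (one_sub_ne hc)
  have hd : DifferentiableOn ℂ h (Dsc ×ˢ Dsc) := by
    intro l hl
    have h1 : DifferentiableWithinAt ℂ (fun l => 1 - (F (sym l)).2) (Dsc ×ˢ Dsc) l :=
      (dP l hl).const_sub 1
    have h2 : DifferentiableWithinAt ℂ (fun l => 1 - (F (sym l)).1 + (F (sym l)).2)
        (Dsc ×ˢ Dsc) l := ((dS l hl).const_sub 1).add (dP l hl)
    have h3 := h1.mul (h2.inv (hV l hl))
    refine h3.congr (fun y _ => ?_) ?_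
    · rw [hh]; simp only [div_eq_mul_inv, Pi.mul_apply, Pi.inv_apply]
    · rw [hh]; simp only [div_eq_mul_inv, Pi.mul_apply, Pi.inv_apply]
  have hre : ∀ z ∈ Dsc ×ˢ Dsc, 0 ≤ (h z).re := by
    intro l hl
    obtain ⟨a, c, ha, hc, h1, h2⟩ := rep hm hl
    rw [hh]
    simp only
    rw [h1, h2, kk_add (one_sub_ne ha) (one_sub_ne hc)]
    have e1 := kk_re_pos ha
    have e2 := kk_re_pos hc
    rw [Complex.div_ofNat_re, Complex.add_re]
    positivity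
  have hsymm : ∀ x y : ℂ, h (x, y) = h (y, x) := by
    intro x y
    have : sym (x, y) = sym (y, x) := by
      unfold sym
      simp only [Prod.mk.injEq]
      exact ⟨add_comm _ _, mul_comm _ _⟩
    rw [hh]
    simp only [this]
  have hb1 : 1 - b ≠ 0 := one_sub_ne (mem_Dsc.1 hb)
  -- asymptotics
  have hid : Tendsto (fun z : ℂ => z) (𝓝[Dsc] 1) (𝓝 1) := nhdsWithin_le_nhds
  have h1z : Tendsto (fun z : ℂ => 1 - z) (𝓝[Dsc] 1) (𝓝 (1 - 1)) := tendsto_const_nhds.sub hid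
  set v : ℂ → ℂ := fun z => (1 - b) + (α z - β z) * (1 - z) ^ 2 with hv
  have hvlim : Tendsto v (𝓝[Dsc] 1) (𝓝 (1 - b)) := by
    have : Tendsto v (𝓝[Dsc] 1) (𝓝 ((1 - b) + (0 - 0) * (1 - 1) ^ 2)) :=
      tendsto_const_nhds.add ((hα.sub hβ).mul (h1z.pow 2))
    simpa using this
  have hVv : ∀ z ∈ Dsc, 1 - (F (sym (z, b))).1 + (F (sym (z, b))).2 = (1 - z) * v z := by
    intro z hz
    rw [hS z hz, hP z hz, hv]
    ring
  have hvne : ∀ z ∈ Dsc, v z ≠ 0 := by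
    intro z hz h0
    apply hV (z, b) ⟨hz, hb⟩
    rw [hVv z hz, h0, mul_zero]
  have hlim1 : Tendsto (fun z : ℂ => (1 - z) * h (z, b)) (𝓝[Dsc] 1) (𝓝 1) := by
    have h2 : Tendsto (fun z : ℂ => (1 - (z * b + α z * (1 - z) ^ 3)) / v z) (𝓝[Dsc] 1)
        (𝓝 ((1 - (1 * b + 0 * (1 - 1) ^ 3)) / (1 - b))) :=
      (tendsto_const_nhds.sub ((hid.mul_const b).add (hα.mul (h1z.pow 3)))).div hvlim hb1
    have h3 : (1 - (1 * b + 0 * (1 - 1) ^ 3)) / (1 - b) = 1 := by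
      rw [zero_mul, one_mul, add_zero, div_self hb1]
    rw [h3] at h2
    refine h2.congr' ?_
    filter_upwards [self_mem_nhdsWithin] with z hz
    rw [hh]
    simp only
    rw [hVv z hz, hP z hz]
    have h4 := one_sub_ne (mem_Dsc.1 hz)
    have h5 := hvne z hz
    field_simp
  -- two applications of Julia
  have hJ1 : ∀ l ∈ Dsc ×ˢ Dsc, (kk l.1).re / 2 ≤ (h l).re := fun l hl =>
    julia hd hre hb (hlim1.comp tendsto_real) hl
  have hkd1 : DifferentiableOn ℂ (fun l : ℂ × ℂ => kk l.1) (Dsc ×ˢ Dsc) :=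
    kk_diff.comp differentiableOn_fst (fun l hl => hl.1)
  have hkd2 : DifferentiableOn ℂ (fun l : ℂ × ℂ => kk l.2) (Dsc ×ˢ Dsc) :=
    kk_diff.comp differentiableOn_snd (fun l hl => hl.2)
  have hk1 : DifferentiableOn ℂ (fun l : ℂ × ℂ => kk l.1 / 2) (Dsc ×ˢ Dsc) := by
    simpa only [div_eq_mul_inv] using hkd1.mul_const ((2 : ℂ)⁻¹)
  have hk2 : DifferentiableOn ℂ (fun l : ℂ × ℂ => kk l.2 / 2) (Dsc ×ˢ Dsc) := by
    simpa only [div_eq_mul_inv] using hkd2.mul_const ((2 : ℂ)⁻¹)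
  have hJ2 : ∀ l ∈ Dsc ×ˢ Dsc, (kk l.1).re / 2 ≤ (h l - kk l.2 / 2).re := by
    intro l hl
    refine julia (g := fun l => h l - kk l.2 / 2) (b := b) (hd.sub hk2) ?_ hb ?_ hl
    · rintro ⟨x, y⟩ ⟨hx, hy⟩
      have h2 := hJ1 (y, x) ⟨hy, hx⟩
      rw [hsymm] at h2
      simp only [Complex.sub_re, Complex.div_ofNat_re] at *
      linarith
    · have h2 : Tendsto (fun z : ℂ => (1 - z) * h (z, b) - (1 - z) * (kk b / 2)) (𝓝[Dsc] 1)
          (𝓝 (1 - (1 - 1) * (kk b / 2))) := hlim1.sub (h1z.mul_const _)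
      rw [sub_self, zero_mul, sub_zero] at h2
      have h3 := h2.comp tendsto_real
      refine h3.congr (fun r => ?_)
      simp only [Function.comp]
      ring
  -- Hopf
  have hQ := hopf (g := fun l => h l - kk l.2 / 2 - kk l.1 / 2) (b := b)
    ((hd.sub hk2).sub hk1)
    (by
      intro l hl
      have h2 := hJ2 l hl
      simp only [Complex.sub_re, Complex.div_ofNat_re] at *
      linarith) hb
    (by
      have h2 : Tendsto (fun z : ℂ => (-α z * (1 - z) * (1 - b) - (1 - z * b) * (α z - β z)) /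
          (v z * (1 - b))) (𝓝[Dsc] 1)
          (𝓝 ((-0 * (1 - 1) * (1 - b) - (1 - 1 * b) * (0 - 0)) / ((1 - b) * (1 - b)))) := by
        apply Tendsto.div _ (hvlim.mul_const _) (mul_ne_zero hb1 hb1)
        exact ((hα.neg.mul h1z).mul_const _).sub
          ((tendsto_const_nhds.sub (hid.mul_const b)).mul (hα.sub hβ))
      have h3 : (-0 * (1 - 1) * (1 - b) - (1 - 1 * b) * (0 - 0)) / ((1 - b) * (1 - b)) = 0 := by
        simp
      rw [h3] at h2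
      have h4 : Tendsto (fun z : ℂ => (h (z, b) - kk b / 2 - kk z / 2) / (1 - z)) (𝓝[Dsc] 1)
          (𝓝 0) := by
        refine h2.congr' ?_
        filter_upwards [self_mem_nhdsWithin] with z hz
        rw [hh]
        simp only
        rw [hVv z hz, hP z hz, kk, kk]
        have h4 := one_sub_ne (mem_Dsc.1 hz)
        have h5 := hvne z hz
        have h6 : v z = (1 - b) + (α z - β z) * (1 - z) ^ 2 := rfl
        generalize hw : v z = w at *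
        field_simp
        rw [h6]
        ring
      exact h4.comp tendsto_real) hl
  have : h l = (kk l.1 + kk l.2) / 2 := by linear_combination hQ
  exact this

end Pool.Agent.R231.GB
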