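import Pool.Agent.R231.GB.Main1

set_option autoImplicit false

open Filter Topology Set Metric

namespace Pool.Agent.R231.GB

/-- inverse Cayley transform -/
noncomputable def kinv (w : ℂ) : ℂ := (w - 1) / (w + 1)

lemma kinv_ne {w : ℂ} (hw : 0 < w.re) : w + 1 ≠ 0 := by
  intro h
  have := congrArg Complex.re h
  simp only [Complex.add_re, Complex.one_re, Complex.zero_re] at this
  linarith

lemma kinv_mem {w : ℂ} (hw : 0 < w.re) : kinv w ∈ Dsc := by
  have h1 := kinv_ne hw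
  rw [mem_Dsc, kinv, norm_div, div_lt_one (norm_pos_iff.2 h1)]
  have e : ‖w + 1‖ ^ 2 - ‖w - 1‖ ^ 2 = 4 * w.re := by
    rw [← Complex.normSq_eq_norm_sq, ← Complex.normSq_eq_norm_sq]
    simp only [Complex.normSq_apply, Complex.sub_re, Complex.sub_im, Complex.add_re,
      Complex.add_im, Complex.one_re, Complex.one_im]
    ring
  nlinarith [norm_nonneg (w + 1), norm_nonneg (w - 1)]

lemma kk_kinv {w : ℂ} (hw : 0 < w.re) : kk (kinv w) = w := by
  have h1 := kinv_ne hw
  have h2 : 1 - kinv w ≠ 0 := one_sub_ne (mem_Dsc.1 (kinv_mem hw))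
  rw [kk, div_eq_iff h2, kinv]
  field_simp
  ring

lemma kinv_kk {a : ℂ} (ha : a ∈ Dsc) : kinv (kk a) = a := by
  have h1 := one_sub_ne (mem_Dsc.1 ha)
  have h2 : kk a + 1 ≠ 0 := kinv_ne (kk_re_pos (mem_Dsc.1 ha))
  rw [kinv, div_eq_iff h2, kk]
  field_simp
  ring

/-- second step -/
lemma step2 {F : ℂ × ℂ → ℂ × ℂ} (hF : DifferentiableOn ℂ F G2) (hm : MapsTo F G2 G2) {b : ℂ}
    (hb : b ∈ Dsc) {α : ℂ → ℂ} (hα : Tendsto α (𝓝[Dsc] 1) (𝓝 0))
    (hP : ∀ z ∈ Dsc, (F (sym (z, b))).2 = z * b + α z * (1 - z) ^ 3)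
    (h1 : ∀ l ∈ Dsc ×ˢ Dsc, (1 - (F (sym l)).2) / (1 - (F (sym l)).1 + (F (sym l)).2) =
      (kk l.1 + kk l.2) / 2)
    {l : ℂ × ℂ} (hl : l ∈ Dsc ×ˢ Dsc) : (F (sym l)).2 = l.1 * l.2 := by
  obtain ⟨dS, dP⟩ := sym_diff hF
  -- the function E
  set E : ℂ × ℂ → ℂ := fun l =>
    4 * (l.1 * l.2 - (F (sym l)).2) / ((1 - l.1) * (1 - l.2) * (1 - (F (sym l)).2)) with hE
  have hPn : ∀ l ∈ Dsc ×ˢ Dsc, 1 - (F (sym l)).2 ≠ 0 := by
    intro l hl
    obtain ⟨a, c, ha, hc, h1, h2⟩ := rep hm hl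
    rw [h2]
    apply one_sub_ne
    rw [norm_mul]
    nlinarith [norm_nonneg a, norm_nonneg c]
  have hb1 : 1 - b ≠ 0 := one_sub_ne (mem_Dsc.1 hb)
  have hden : ∀ l ∈ Dsc ×ˢ Dsc, (1 - l.1) * (1 - l.2) * (1 - (F (sym l)).2) ≠ 0 := by
    intro l hl
    exact mul_ne_zero (mul_ne_zero (one_sub_ne (mem_Dsc.1 hl.1)) (one_sub_ne (mem_Dsc.1 hl.2)))
      (hPn l hl)
  have hEd : DifferentiableOn ℂ E (Dsc ×ˢ Dsc) := by
    intro l hl
    have h2 : DifferentiableWithinAt ℂ (fun l : ℂ × ℂ => 4 * (l.1 * l.2 - (F (sym l)).2))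
        (Dsc ×ˢ Dsc) l := by
      apply DifferentiableWithinAt.const_mul
      apply DifferentiableWithinAt.sub _ (dP l hl)
      exact differentiableWithinAt_fst.mul differentiableWithinAt_snd
    have h3 : DifferentiableWithinAt ℂ
        (fun l : ℂ × ℂ => (1 - l.1) * (1 - l.2) * (1 - (F (sym l)).2)) (Dsc ×ˢ Dsc) l := by
      apply DifferentiableWithinAt.mul _ ((dP l hl).const_sub 1)
      exact (differentiableWithinAt_fst.const_sub 1).mul (differentiableWithinAt_snd.const_sub 1)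
    have h4 := h2.mul (h3.inv (hden l hl))
    refine h4.congr (fun y _ => ?_) ?_
    · rw [hE]; simp only [div_eq_mul_inv, Pi.mul_apply, Pi.inv_apply]
    · rw [hE]; simp only [div_eq_mul_inv, Pi.mul_apply, Pi.inv_apply]
  -- the main inequality
  have hineq : ∀ l ∈ Dsc ×ˢ Dsc, ((kk l.1 + (starRingEnd ℂ) (kk l.2)) * E l).re ≤
      (kk l.1).re * ‖kk l.1 + (starRingEnd ℂ) (kk l.2)‖ ^ 2 := by
    intro l hl
    obtain ⟨a, c, ha, hc, e1, e2⟩ := rep hm hl
    have na := one_sub_ne ha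
    have nc := one_sub_ne hc
    have n1 := one_sub_ne (mem_Dsc.1 hl.1)
    have n2 := one_sub_ne (mem_Dsc.1 hl.2)
    have hT : kk a + kk c = kk l.1 + kk l.2 := by
      have h3 := h1 l hl
      rw [e1, e2, kk_add na nc] at h3
      linear_combination 2 * h3
    have hEe : E l = kk l.1 * kk l.2 - kk a * kk c := by
      have np := hPn l hl
      rw [e2] at np
      rw [hE]
      simp only
      rw [e2]
      have h3 := kk_add na nc
      have h4 := kk_add n1 n2
      have h5 := kk_mul na nc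
      have h6 := kk_mul n1 n2
      rw [← h5, ← h6]
      have h7 : (1 - a * c) / (1 - (a + c) + a * c) =
          (1 - l.1 * l.2) / (1 - (l.1 + l.2) + l.1 * l.2) := by rw [h3, h4, hT]
      have v1 : 1 - (a + c) + a * c = (1 - a) * (1 - c) := by ring
      have v2 : 1 - (l.1 + l.2) + l.1 * l.2 = (1 - l.1) * (1 - l.2) := by ring
      have v1n : 1 - (a + c) + a * c ≠ 0 := by rw [v1]; exact mul_ne_zero na nc
      have v2n : 1 - (l.1 + l.2) + l.1 * l.2 ≠ 0 := by rw [v2]; exact mul_ne_zero n1 n2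
      rw [← v2]
      have h8 : (1 - a * c) * (1 - (l.1 + l.2) + l.1 * l.2) =
          (1 - l.1 * l.2) * (1 - (a + c) + a * c) := by
        rw [div_eq_div_iff v1n v2n] at h7
        exact h7
      -- (1 + (a+c) + ac) = 2 (1 + ac) - V
      have h9 : (1 + (a + c) + a * c) / (1 - (a + c) + a * c) =
          2 * (1 + a * c) * (1 - l.1 * l.2) / ((1 - a * c) * (1 - (l.1 + l.2) + l.1 * l.2)) - 1 := by
        rw [h8]
        have hpn : 1 - l.1 * l.2 ≠ 0 := by
          apply one_sub_ne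
          rw [norm_mul]
          have q1 := mem_Dsc.1 hl.1
          have q2 := mem_Dsc.1 hl.2
          nlinarith [norm_nonneg l.1, norm_nonneg l.2]
        generalize 1 - l.1 * l.2 = u at hpn
        generalize hV : 1 - (a + c) + a * c = V at v1n
        field_simp
        linear_combination (-1 : ℂ) * hV
      rw [h9]
      generalize hW : 1 - (l.1 + l.2) + l.1 * l.2 = W at v2n
      generalize hp : l.1 * l.2 = p at *
      generalize a * c = P at *
      field_simp
      linear_combination (1 - P) * hW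
    rw [hEe]
    exact ineqII (kk_re_pos (mem_Dsc.1 hl.1)) (kk_re_pos (mem_Dsc.1 hl.2)) (kk_re_pos ha)
      (kk_re_pos hc) hT
  -- conjugation
  set w₀ : ℂ := kk b with hw₀
  have hw₀re : 0 < w₀.re := kk_re_pos (mem_Dsc.1 hb)
  have hsum_re : ∀ z ∈ Dsc, w₀.re ≤ (kk z + (starRingEnd ℂ) w₀).re := by
    intro z hz
    rw [Complex.add_re, Complex.conj_re]
    linarith [kk_re_pos (mem_Dsc.1 hz)]
  have hsum_norm : ∀ z ∈ Dsc, w₀.re ≤ ‖kk z + (starRingEnd ℂ) w₀‖ := fun z hz =>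
    (hsum_re z hz).trans (Complex.re_le_norm _)
  have hsum_ne : ∀ z ∈ Dsc, kk z + (starRingEnd ℂ) w₀ ≠ 0 := fun z hz =>
    norm_pos_iff.1 (lt_of_lt_of_le hw₀re (hsum_norm z hz))
  set C : ℝ := 2 + 2 * ‖w₀‖ with hC
  have hCpos : 0 < C := by positivity
  have hsum_le : ∀ z ∈ Dsc, ‖kk z + (starRingEnd ℂ) w₀‖ * ‖1 - z‖ ≤ C := by
    intro z hz
    have hz1 := mem_Dsc.1 hz
    rw [← norm_mul]
    have e : (kk z + (starRingEnd ℂ) w₀) * (1 - z) = 1 + z + (starRingEnd ℂ) w₀ * (1 - z) := by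
      rw [kk]
      have := one_sub_ne hz1
      field_simp
    rw [e]
    calc ‖1 + z + (starRingEnd ℂ) w₀ * (1 - z)‖ ≤ ‖1 + z‖ + ‖(starRingEnd ℂ) w₀ * (1 - z)‖ :=
          norm_add_le _ _
      _ ≤ (‖(1 : ℂ)‖ + ‖z‖) + ‖w₀‖ * (‖(1 : ℂ)‖ + ‖z‖) := by
          rw [norm_mul, RCLike.norm_conj]
          gcongr
          · exact norm_add_le _ _
          · exact norm_sub_le _ _
      _ ≤ C := by
          rw [norm_one, hC]
          nlinarith [norm_nonneg w₀]
  -- Step 2a
  have h2a : ∀ z ∈ Dsc, E (z, b) = 0 := by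
    set G : ℂ → ℂ := fun z => (kk z + (starRingEnd ℂ) w₀) * E (z, b) with hG
    have hGd : DifferentiableOn ℂ G Dsc := by
      apply (kk_diff.add_const _).mul
      exact hEd.comp (by fun_prop) (fun z hz => ⟨hz, hb⟩)
    have hid : Tendsto (fun z : ℂ => z) (𝓝[Dsc] 1) (𝓝 1) := nhdsWithin_le_nhds
    have h1z : Tendsto (fun z : ℂ => 1 - z) (𝓝[Dsc] 1) (𝓝 (1 - 1)) :=
      tendsto_const_nhds.sub hid
    have hlim : Tendsto (fun z : ℂ => G z / (1 - z)) (𝓝[Dsc] 1) (𝓝 0) := by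
      have h2 : Tendsto (fun z : ℂ => -4 * α z * (1 + z + (starRingEnd ℂ) w₀ * (1 - z)) /
          ((1 - b) * (1 - (z * b + α z * (1 - z) ^ 3)))) (𝓝[Dsc] 1)
          (𝓝 (-4 * 0 * (1 + 1 + (starRingEnd ℂ) w₀ * (1 - 1)) /
          ((1 - b) * (1 - (1 * b + 0 * (1 - 1) ^ 3))))) := by
        apply Tendsto.div
        · exact (hα.const_mul _).mul ((tendsto_const_nhds.add hid).add (h1z.const_mul _))
        · apply Tendsto.const_mul
          exact tendsto_const_nhds.sub ((hid.mul_const b).add (hα.mul (h1z.pow 3)))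
        · rw [zero_mul, add_zero, one_mul]
          exact mul_ne_zero hb1 hb1
      have h3 : (-4 * 0 * (1 + 1 + (starRingEnd ℂ) w₀ * (1 - 1)) /
          ((1 - b) * (1 - (1 * b + 0 * (1 - 1) ^ 3)))) = 0 := by
        rw [mul_zero, zero_mul, zero_div]
      rw [h3] at h2
      refine h2.congr' ?_
      filter_upwards [self_mem_nhdsWithin] with z hz
      have hz1 := one_sub_ne (mem_Dsc.1 hz)
      have hz2 := hPn (z, b) ⟨hz, hb⟩
      rw [hG, hE]
      simp only
      rw [hP z hz] at hz2 ⊢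
      rw [kk]
      field_simp
      ring
    have hlim0 : Tendsto G (𝓝[Dsc] 1) (𝓝 0) := by
      have h2 := hlim.mul h1z
      rw [zero_mul] at h2
      refine h2.congr' ?_
      filter_upwards [self_mem_nhdsWithin] with z hz
      rw [div_mul_cancel₀ _ (one_sub_ne (mem_Dsc.1 hz))]
    have hGre : ∀ z ∈ Dsc, (G z).re ≤ 0 := by
      intro z hz
      refine re_nonpos_of_bound hGd (C := C ^ 2) (by positivity) ?_ hlim0 hz
      intro z hz
      have h2 := hineq (z, b) ⟨hz, hb⟩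
      simp only at h2
      have h3 : 0 < ‖1 - z‖ := norm_pos_iff.2 (one_sub_ne (mem_Dsc.1 hz))
      have h4 := hsum_le z hz
      have h5 : 0 ≤ 1 - ‖z‖ ^ 2 := by
        have := mem_Dsc.1 hz
        nlinarith [norm_nonneg z]
      calc (G z).re ≤ (kk z).re * ‖kk z + (starRingEnd ℂ) w₀‖ ^ 2 := h2
        _ = (1 - ‖z‖ ^ 2) / ‖1 - z‖ ^ 4 * (‖kk z + (starRingEnd ℂ) w₀‖ * ‖1 - z‖) ^ 2 := by
            rw [kk_re]
            field_simp
        _ ≤ (1 - ‖z‖ ^ 2) / ‖1 - z‖ ^ 4 * C ^ 2 := by gcongr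
        _ = C ^ 2 * ((1 - ‖z‖ ^ 2) / ‖1 - z‖ ^ 4) := by ring
    intro z hz
    have h2 := hopf (g := fun l => -G l.1) (b := b) (l := (z, b))
      ((hGd.comp differentiableOn_fst (fun l hl => hl.1)).neg)
      (by
        intro l hl
        rw [Complex.neg_re]
        linarith [hGre l.1 hl.1]) hb
      (by
        have h3 := (hlim.comp tendsto_real).neg
        rw [neg_zero] at h3
        refine h3.congr (fun r => ?_)
        simp only [Function.comp]
        ring) ⟨hz, hb⟩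
    simp only [neg_eq_zero] at h2
    rw [hG] at h2
    simp only at h2
    exact (mul_eq_zero.1 h2).resolve_left (hsum_ne z hz)
  -- Step 2b
  set ρ : ℝ := w₀.re / 8 with hρ
  have hρpos : 0 < ρ := by positivity
  have hηre : ∀ η : ℂ, ‖η‖ ≤ ρ → 0 < (w₀ + η).re := by
    intro η hη
    rw [Complex.add_re]
    have := (abs_le.1 (Complex.abs_re_le_norm η)).1
    rw [hρ] at hη
    linarith
  have h2b : ∀ η : ℂ, ‖η‖ ≤ ρ / 2 → ∀ z ∈ Dsc, ‖E (z, kinv (w₀ + η))‖ ≤
      14 * ((kk z).re * ‖kk z + (starRingEnd ℂ) w₀‖) := by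
    intro η hη z hz
    have hzre := kk_re_pos (mem_Dsc.1 hz)
    set s : ℂ := kk z + (starRingEnd ℂ) w₀ with hs
    have hsn : 0 < ‖s‖ := norm_pos_iff.2 (hsum_ne z hz)
    have hs0 : s ≠ 0 := hsum_ne z hz
    have hM : 0 < 2 * (kk z).re * ‖s‖ ^ 2 := by positivity
    have key := local_bound (E := fun η => s * E (z, kinv (w₀ + η))) (ρ := ρ)
      (M := 2 * (kk z).re * ‖s‖ ^ 2) (δ := 1 / s) (η := η) hρpos hM
      (by
        apply DifferentiableOn.const_mul
        apply hEd.comp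
        · apply DifferentiableOn.prodMk (by fun_prop)
          unfold kinv
          apply DifferentiableOn.div (by fun_prop) (by fun_prop)
          intro w hw
          exact kinv_ne (hηre w (mem_closedBall_zero_iff.1 hw))
        · intro w hw
          exact ⟨hz, kinv_mem (hηre w (mem_closedBall_zero_iff.1 hw))⟩)
      (by
        simp only [add_zero]
        rw [hw₀, kinv_kk hb, h2a z hz, mul_zero])
      (by
        rw [norm_div, norm_one, div_mul_eq_mul_div, one_mul, div_le_iff₀ hsn, hρ]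
        have := hsum_norm z hz
        linarith)
      (by
        intro η hη
        have hre := hηre η hη.le
        have h3 := hineq (z, kinv (w₀ + η)) ⟨hz, kinv_mem hre⟩
        simp only at h3
        rw [kk_kinv hre, map_add, ← add_assoc, ← hs] at h3
        have e1 : (1 + 1 / s * (starRingEnd ℂ) η) * (s * E (z, kinv (w₀ + η))) =
            (s + (starRingEnd ℂ) η) * E (z, kinv (w₀ + η)) := by
          field_simp
        rw [e1]
        refine h3.trans ?_
        have h4 : ‖s + (starRingEnd ℂ) η‖ ≤ ‖s‖ + ‖s‖ / 8 := by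
          calc ‖s + (starRingEnd ℂ) η‖ ≤ ‖s‖ + ‖(starRingEnd ℂ) η‖ := norm_add_le _ _
            _ ≤ ‖s‖ + ‖s‖ / 8 := by
                rw [RCLike.norm_conj, hη, hρ]
                have := hsum_norm z hz
                rw [← hs] at this
                linarith
        calc (kk z).re * ‖s + (starRingEnd ℂ) η‖ ^ 2 ≤ (kk z).re * (‖s‖ + ‖s‖ / 8) ^ 2 := by
              gcongr
          _ ≤ 2 * (kk z).re * ‖s‖ ^ 2 := by nlinarith [sq_nonneg ‖s‖, mul_pos hzre (pow_pos hsn 2)])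
      hη
    simp only [norm_mul] at key
    have h5 : ‖s‖ * ‖E (z, kinv (w₀ + η))‖ ≤ ‖s‖ * (14 * ((kk z).re * ‖s‖)) := by
      calc _ ≤ _ := key
        _ = _ := by ring
    exact le_of_mul_le_mul_left h5 hsn
  -- Step 2c
  have h2c : ∀ η : ℂ, ‖η‖ ≤ ρ / 2 → ∀ z ∈ Dsc, E (z, kinv (w₀ + η)) = 0 := by
    intro η hη z hz
    have hk : kinv (w₀ + η) ∈ Dsc := kinv_mem (hηre η (by linarith))
    have h3 := zero_of_bound (f := fun z => (1 - z) ^ 3 * E (z, kinv (w₀ + η))) (C := 14 * C)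
      (by
        apply DifferentiableOn.mul (by fun_prop)
        exact hEd.comp (by fun_prop) (fun z hz => ⟨hz, hk⟩))
      (by
        intro z hz
        have h4 := h2b η hη z hz
        have h5 : 0 < ‖1 - z‖ := norm_pos_iff.2 (one_sub_ne (mem_Dsc.1 hz))
        have h6 := hsum_le z hz
        have h7 : 0 ≤ 1 - ‖z‖ ^ 2 := by
          have := mem_Dsc.1 hz
          nlinarith [norm_nonneg z]
        rw [norm_mul, norm_pow]
        calc ‖1 - z‖ ^ 3 * ‖E (z, kinv (w₀ + η))‖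
            ≤ ‖1 - z‖ ^ 3 * (14 * ((kk z).re * ‖kk z + (starRingEnd ℂ) w₀‖)) := by gcongr
          _ = 14 * (1 - ‖z‖ ^ 2) * (‖kk z + (starRingEnd ℂ) w₀‖ * ‖1 - z‖) := by
              rw [kk_re]
              field_simp
          _ ≤ 14 * (1 - ‖z‖ ^ 2) * C := by gcongr
          _ = 14 * C * (1 - ‖z‖ ^ 2) := by ring) hz
    exact (mul_eq_zero.1 h3).resolve_left (pow_ne_zero 3 (one_sub_ne (mem_Dsc.1 hz)))
  -- Step 2d
  have h2d : ∀ l ∈ Dsc ×ˢ Dsc, E l = 0 := by
    rintro ⟨z, w⟩ ⟨hz, hw⟩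
    have hopen : IsOpen Dsc := isOpen_ball
    have han : AnalyticOnNhd ℂ (fun w => E (z, w)) Dsc := by
      apply DifferentiableOn.analyticOnNhd _ hopen
      exact hEd.comp (by fun_prop) (fun w hw => ⟨hz, hw⟩)
    have hev : (fun w => E (z, w)) =ᶠ[𝓝 b] 0 := by
      have hkc : ContinuousAt kk b :=
        (kk_diff.differentiableAt (hopen.mem_nhds hb)).continuousAt
      have h3 : ∀ᶠ w in 𝓝 b, dist (kk w) (kk b) < ρ / 2 :=
        hkc.eventually (Metric.ball_mem_nhds _ (by positivity))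
      filter_upwards [h3, hopen.mem_nhds hb] with w h4 h5
      rw [dist_eq_norm] at h4
      have h6 := h2c (kk w - w₀) h4.le z hz
      rw [add_sub_cancel, kinv_kk h5] at h6
      exact h6
    exact han.eqOn_zero_of_preconnected_of_eventuallyEq_zero
      (convex_ball (0 : ℂ) 1).isPreconnected hb hev hw
  have h3 := h2d l hl
  rw [hE] at h3
  simp only at h3
  rcases div_eq_zero_iff.1 h3 with h4 | h4
  · have h5 : l.1 * l.2 - (F (sym l)).2 = 0 := by
      rcases mul_eq_zero.1 h4 with h | h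
      · norm_num at h
      · exact h
    linear_combination -h5
  · exact absurd h4 (hden l hl)

end Pool.Agent.R231.GB
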