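import Mathlib

set_option autoImplicit false

open Filter Topology Set Metric

namespace Pool.Agent.R231.GB

/-- the unit disc -/
def Dsc : Set ℂ := ball 0 1

lemma mem_Dsc {z : ℂ} : z ∈ Dsc ↔ ‖z‖ < 1 := mem_ball_zero_iff

lemma norm_add_conj_sq (a b : ℂ) :
    ‖a + (starRingEnd ℂ) b‖ ^ 2 = ‖a - b‖ ^ 2 + 4 * a.re * b.re := by
  rw [← Complex.normSq_eq_norm_sq, ← Complex.normSq_eq_norm_sq, Complex.normSq_apply,
    Complex.normSq_apply]
  simp only [Complex.add_re, Complex.add_im, Complex.sub_re, Complex.sub_im, Complex.conj_re,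
    Complex.conj_im]
  ring

/-- Schwarz-Pick at the centre, functions with positive real part -/
lemma sp_center_pos {g : ℂ → ℂ} (hg : DifferentiableOn ℂ g Dsc) (hre : ∀ z ∈ Dsc, 0 < (g z).re)
    {z : ℂ} (hz : z ∈ Dsc) :
    ‖g z - g 0‖ ^ 2 * (1 - ‖z‖ ^ 2) ≤ 4 * (g z).re * (g 0).re * ‖z‖ ^ 2 := by
  have h0 : (0 : ℂ) ∈ Dsc := by rw [mem_Dsc]; simp
  have hne : ∀ w ∈ Dsc, g w + (starRingEnd ℂ) (g 0) ≠ 0 := by
    intro w hw h
    have h1 := congrArg Complex.re h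
    simp only [Complex.add_re, Complex.conj_re, Complex.zero_re] at h1
    linarith [hre w hw, hre 0 h0]
  set φ : ℂ → ℂ := fun w => (g w - g 0) / (g w + (starRingEnd ℂ) (g 0)) with hφ
  have hφd : DifferentiableOn ℂ φ (ball 0 1) :=
    (hg.sub_const _).div (hg.add_const _) hne
  have hφm : MapsTo φ (ball 0 1) (ball 0 1) := by
    intro w hw
    rw [mem_ball_zero_iff, hφ]
    simp only
    rw [norm_div, div_lt_one (norm_pos_iff.2 (hne w hw))]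
    have h1 := norm_add_conj_sq (g w) (g 0)
    have h2 : 0 < (g w).re * (g 0).re := mul_pos (hre w hw) (hre 0 h0)
    have h3 := norm_nonneg (g w - g 0)
    have h4 := norm_nonneg (g w + (starRingEnd ℂ) (g 0))
    nlinarith
  have hφ0 : φ 0 = 0 := by simp [hφ]
  have h1 : ‖φ z‖ ≤ ‖z‖ := by
    have := Complex.norm_le_norm_of_mapsTo_ball hφd (by
      intro w hw; exact ball_subset_closedBall (hφm hw)) hφ0 (mem_Dsc.1 hz)
    exact this
  rw [hφ] at h1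
  simp only at h1
  have hpos := norm_pos_iff.2 (hne z hz)
  rw [norm_div, div_le_iff₀ hpos] at h1
  have h2 : ‖g z - g 0‖ ^ 2 ≤ ‖z‖ ^ 2 * ‖g z + (starRingEnd ℂ) (g 0)‖ ^ 2 := by
    rw [← mul_pow]
    gcongr
  rw [norm_add_conj_sq] at h2
  nlinarith

/-- Schwarz-Pick at the centre, functions with nonnegative real part -/
lemma sp_center {g : ℂ → ℂ} (hg : DifferentiableOn ℂ g Dsc) (hre : ∀ z ∈ Dsc, 0 ≤ (g z).re)
    {z : ℂ} (hz : z ∈ Dsc) :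
    ‖g z - g 0‖ ^ 2 * (1 - ‖z‖ ^ 2) ≤ 4 * (g z).re * (g 0).re * ‖z‖ ^ 2 := by
  have key : ∀ ε : ℝ, 0 < ε →
      ‖g z - g 0‖ ^ 2 * (1 - ‖z‖ ^ 2) ≤ 4 * ((g z).re + ε) * ((g 0).re + ε) * ‖z‖ ^ 2 := by
    intro ε hε
    have h := sp_center_pos (g := fun w => g w + (ε : ℂ)) (hg.add_const _) (fun w hw => by
      simp only [Complex.add_re, Complex.ofReal_re]
      linarith [hre w hw]) hz
    simpa using h
  have hlim : Tendsto (fun ε : ℝ => 4 * ((g z).re + ε) * ((g 0).re + ε) * ‖z‖ ^ 2) (𝓝[>] 0)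
      (𝓝 (4 * ((g z).re + 0) * ((g 0).re + 0) * ‖z‖ ^ 2)) := by
    apply Tendsto.mono_left _ nhdsWithin_le_nhds
    exact Continuous.tendsto (by fun_prop) 0
  rw [add_zero, add_zero] at hlim
  refine ge_of_tendsto hlim ?_
  filter_upwards [self_mem_nhdsWithin] with ε hε using key ε hε

/-- the Möbius map `ζ ↦ (c ζ + m)/(1 + m̄ c ζ)` maps the disc to itself if `|c| ≤ 1`, `|m| < 1` -/
lemma mob_mem {c m ζ : ℂ} (hc : ‖c‖ ≤ 1) (hm : m ∈ Dsc) (hζ : ζ ∈ Dsc) :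
    1 + (starRingEnd ℂ) m * (c * ζ) ≠ 0 ∧
      (c * ζ + m) / (1 + (starRingEnd ℂ) m * (c * ζ)) ∈ Dsc := by
  rw [mem_Dsc] at *
  have h1 : ‖c * ζ‖ < 1 := by
    rw [norm_mul]
    calc ‖c‖ * ‖ζ‖ ≤ 1 * ‖ζ‖ := by gcongr
      _ < 1 := by linarith
  have h2 : ‖(starRingEnd ℂ) m * (c * ζ)‖ < 1 := by
    rw [norm_mul, RCLike.norm_conj]
    nlinarith [norm_nonneg m, norm_nonneg (c * ζ)]
  have hne : 1 + (starRingEnd ℂ) m * (c * ζ) ≠ 0 := by
    intro h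
    have h3 : (starRingEnd ℂ) m * (c * ζ) = -1 := by linear_combination h
    rw [h3, norm_neg, norm_one] at h2
    exact lt_irrefl _ h2
  refine ⟨hne, ?_⟩
  rw [norm_div, div_lt_one (norm_pos_iff.2 hne)]
  generalize c * ζ = w at h1
  have e : ‖1 + (starRingEnd ℂ) m * w‖ ^ 2 - ‖w + m‖ ^ 2 = (1 - ‖m‖ ^ 2) * (1 - ‖w‖ ^ 2) := by
    rw [← Complex.normSq_eq_norm_sq, ← Complex.normSq_eq_norm_sq, ← Complex.normSq_eq_norm_sq,
      ← Complex.normSq_eq_norm_sq]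
    simp only [Complex.normSq_apply, Complex.add_re, Complex.add_im, Complex.mul_re,
      Complex.mul_im, Complex.conj_re, Complex.conj_im, Complex.one_re, Complex.one_im]
    ring
  have h4 : 0 < (1 - ‖m‖ ^ 2) * (1 - ‖w‖ ^ 2) := by
    apply mul_pos
    · nlinarith [norm_nonneg m]
    · nlinarith [norm_nonneg w]
  have h5 := norm_nonneg (w + m)
  have h6 := norm_nonneg (1 + (starRingEnd ℂ) m * w)
  nlinarith

/-- Schwarz-Pick on the bidisc -/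
lemma sp2 {g : ℂ × ℂ → ℂ} (hg : DifferentiableOn ℂ g (Dsc ×ˢ Dsc))
    (hre : ∀ z ∈ Dsc ×ˢ Dsc, 0 ≤ (g z).re) {l m : ℂ × ℂ} (hl : l ∈ Dsc ×ˢ Dsc)
    (hm : m ∈ Dsc ×ˢ Dsc) {t : ℝ} (ht0 : 0 < t) (ht1 : t < 1)
    (h1 : ‖l.1 - m.1‖ ≤ t * ‖1 - (starRingEnd ℂ) m.1 * l.1‖)
    (h2 : ‖l.2 - m.2‖ ≤ t * ‖1 - (starRingEnd ℂ) m.2 * l.2‖) :
    ‖g l - g m‖ ^ 2 * (1 - t ^ 2) ≤ 4 * (g l).re * (g m).re * t ^ 2 := by
  have hden : ∀ a b : ℂ, a ∈ Dsc → b ∈ Dsc → 1 - (starRingEnd ℂ) b * a ≠ 0 := by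
    intro a b ha hb h
    rw [mem_Dsc] at ha hb
    have h3 : (starRingEnd ℂ) b * a = 1 := by linear_combination -h
    have h4 : ‖(starRingEnd ℂ) b * a‖ < 1 := by
      rw [norm_mul, RCLike.norm_conj]
      nlinarith [norm_nonneg a, norm_nonneg b]
    rw [h3, norm_one] at h4
    exact lt_irrefl _ h4
  have htc : (t : ℂ) ≠ 0 := by exact_mod_cast ht0.ne'
  -- the two components of the disc
  have comp : ∀ a b : ℂ, a ∈ Dsc → b ∈ Dsc → ‖a - b‖ ≤ t * ‖1 - (starRingEnd ℂ) b * a‖ →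
      ∃ φ : ℂ → ℂ, DifferentiableOn ℂ φ Dsc ∧ MapsTo φ Dsc Dsc ∧ φ 0 = b ∧ φ t = a := by
    intro a b ha hb hab
    have hd := hden a b ha hb
    set c : ℂ := (a - b) / (1 - (starRingEnd ℂ) b * a) / t with hc
    have hc1 : ‖c‖ ≤ 1 := by
      rw [hc, norm_div, norm_div, Complex.norm_real, Real.norm_of_nonneg ht0.le,
        div_le_one ht0, div_le_iff₀ (norm_pos_iff.2 hd)]
      exact hab
    refine ⟨fun ζ => (c * ζ + b) / (1 + (starRingEnd ℂ) b * (c * ζ)), ?_, ?_, ?_, ?_⟩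
    · apply DifferentiableOn.div (by fun_prop) (by fun_prop)
      intro ζ hζ
      exact (mob_mem hc1 hb hζ).1
    · intro ζ hζ
      exact (mob_mem hc1 hb hζ).2
    · simp
    · have htD : (t : ℂ) ∈ Dsc := by
        rw [mem_Dsc, Complex.norm_real, Real.norm_of_nonneg ht0.le]; exact ht1
      have hne := (mob_mem hc1 hb htD).1
      show (c * t + b) / (1 + (starRingEnd ℂ) b * (c * t)) = a
      rw [div_eq_iff hne]
      have hct : c * t = (a - b) / (1 - (starRingEnd ℂ) b * a) := by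
        rw [hc]; field_simp
      have hx : (c * t) * (1 - (starRingEnd ℂ) b * a) = a - b := by
        rw [hct, div_mul_cancel₀ _ hd]
      linear_combination hx
  obtain ⟨φ₁, d1, m1, z1, t1⟩ := comp l.1 m.1 hl.1 hm.1 h1
  obtain ⟨φ₂, d2, m2, z2, t2⟩ := comp l.2 m.2 hl.2 hm.2 h2
  have hmaps : MapsTo (fun ζ => (φ₁ ζ, φ₂ ζ)) Dsc (Dsc ×ˢ Dsc) := fun ζ hζ => ⟨m1 hζ, m2 hζ⟩
  have hcomp : DifferentiableOn ℂ (fun ζ => g (φ₁ ζ, φ₂ ζ)) Dsc :=
    hg.comp (d1.prodMk d2) hmaps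
  have htD : (t : ℂ) ∈ Dsc := by
    rw [mem_Dsc, Complex.norm_real, Real.norm_of_nonneg ht0.le]; exact ht1
  have h := sp_center hcomp (fun ζ hζ => hre _ (hmaps hζ)) htD
  simp only [z1, z2, t1, t2, Complex.norm_real, Real.norm_of_nonneg ht0.le] at h
  exact h

end Pool.Agent.R231.GB
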